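import Pool.Agent.Helper45.U4.St1

/-!
# Project U4 (MP_a1f43d_co): module LBD (lower bounds)
-/

set_option autoImplicit false

open Module Classical
open scoped LinearAlgebra.Projectivization

namespace Pool.Agent.Helper28.U4

open Pool.Agent.Helper45.U4 Pool.Agent.Helper53.PB

private theorem lbd_min {F V : Type} [Field F] [AddCommGroup V] [Module F V] [FiniteDimensional F V]
    [Finite V] (φ : Form F V) (f : ℙ F V → ℤ) (hf : ∀ U, φ.toPolar.Gen U → 1 ≤ tf f U) :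
    ∃ U, φ.toPolar.Gen U ∧ ∀ W, φ.toPolar.Gen W → tf f U ≤ tf f W := by
  obtain ⟨W0, hW0, _⟩ := Polar.exists_gen_ge (Polar.ts_bot (P := φ.toPolar))
  obtain ⟨U, hU, hmin⟩ := WellFounded.has_min
    (measure (fun U : Submodule F V => (tf f U).toNat)).wf {U | φ.toPolar.Gen U} ⟨W0, hW0⟩
  refine ⟨U, hU, fun W hW => ?_⟩
  have h1 := hmin W hW
  have h2 := hf W hW
  have h3 := hf U hU
  have h4 : ¬ (tf f W).toNat < (tf f U).toNat := h1
  omega

private theorem lbd_core {F V : Type} [Field F] [AddCommGroup V] [Module F V] [Finite F] [Finite V]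
    [FiniteDimensional F V] (h1 : StHNB) (h4 : StCON) (h5 : StNBX) (φ : Form F V) (f : ℙ F V → ℤ)
    (r n c : ℕ) (s0 : ℤ) (hs : Hs φ r) (hcn : c < n)
    (hf : ∀ U, φ.toPolar.Gen U → 1 ≤ tf f U)
    (hN : ∀ U, φ.toPolar.Gen U → ∀ N : Nb φ.toPolar U Bool,
      (∑ p, (tf f (N.nb p) - 1) = (∑ y, f y - s0) + c * (tf f U - 1) ∧
        Fintype.card (Bool × ℙ F (Dual F U)) = n)) :
    s0 ≤ ∑ y, f y ∧ (∑ y, f y = s0 → ∀ U, φ.toPolar.Gen U → tf f U = 1) := by
  obtain ⟨U, hU, hmin⟩ := lbd_min φ f hf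
  obtain ⟨N⟩ := h1 φ r hs U hU
  obtain ⟨e1, e2⟩ := hN U hU N
  have hle : (n : ℤ) * (tf f U - 1) ≤ ∑ p, (tf f (N.nb p) - 1) := by
    have := Finset.card_nsmul_le_sum Finset.univ (fun p => tf f (N.nb p) - 1) (tf f U - 1)
      (fun p _ => by
        have := hmin _ (N.gen p)
        omega)
    rw [Finset.card_univ, e2, nsmul_eq_mul] at this
    exact this
  have hm := hf U hU
  have hcn' : (c : ℤ) + 1 ≤ n := by exact_mod_cast hcn
  have hkey : ((n : ℤ) - c) * (tf f U - 1) ≤ ∑ y, f y - s0 := by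
    have : ((n : ℤ) - c) * (tf f U - 1) = (n : ℤ) * (tf f U - 1) - c * (tf f U - 1) := by ring
    rw [this]
    linarith
  have hmul : (tf f U - 1) ≤ ((n : ℤ) - c) * (tf f U - 1) := by
    nlinarith
  refine ⟨by linarith, fun hS W hW => ?_⟩
  have hU1 : tf f U = 1 := by
    have : tf f U - 1 ≤ 0 := by linarith
    linarith
  refine h4 φ r hs ⊥ (fun W => tf f W = 1) ?_ U W hU hW bot_le bot_le hU1
  intro U' W' hU' hW' _ _ hd hU1'
  obtain ⟨N'⟩ := h1 φ r hs U' hU'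
  obtain ⟨g1, _⟩ := hN U' hU' N'
  have hU1'' : tf f U' = 1 := hU1'
  rw [hS, hU1''] at g1
  have g1' : ∑ p, (tf f (N'.nb p) - 1) = 0 := by
    rw [g1]
    ring
  obtain ⟨p, hp⟩ := (h5 φ r hs U' hU' N').1 W' hW' hd
  have g2 := (Finset.sum_eq_zero_iff_of_nonneg (fun p _ => by
    have := hf _ (N'.gen p)
    omega)).1 g1' p (Finset.mem_univ p)
  rw [hp] at g2
  change tf f W' = 1
  omega

theorem hLBD (h1 : StHNB) (h2 : StRTH) (h3 : StRFO) (h4 : StCON) (h5 : StNBX) : StLBD := by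
  intro F V _ _ _ _ _ _ φ f hsup hf
  refine ⟨fun hs => ?_, fun hs => ?_⟩
  · refine lbd_core h1 h4 h5 φ f 3 42 9 33 hs (by norm_num) hf (fun U hU N => ?_)
    have := (h2 φ f hs hsup).1 U hU N
    exact ⟨by simpa using this.1.1, this.1.2⟩
  · refine lbd_core h1 h4 h5 φ f 4 170 41 129 hs (by norm_num) hf (fun U hU N => ?_)
    have := (h3 φ f hs hsup).1 U hU N
    exact ⟨by simpa using this.1.1, this.1.2⟩

end Pool.Agent.Helper28.U4
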